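import Pool.Agent.H812R2.AP.NoAP
import Mathlib

/-!
Pointwise approximation by finite-rank operators and the bounded approximation property for an
operator ideal: the two conditions differ for the ideal of approximable operators.
-/

set_option autoImplicit false

namespace Pool.Agent.Results.MP_2b2a50_an.NotEquivalent

open Filter Topology

/-- A Banach space over `𝕜`. -/
structure Ban (𝕜 : Type) [RCLike 𝕜] where
  /-- the space -/
  V : Type
  [ng : NormedAddCommGroup V]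
  [ns : NormedSpace 𝕜 V]
  [cs : CompleteSpace V]

attribute [instance] Ban.ng Ban.ns Ban.cs

variable {𝕜 : Type} [RCLike 𝕜]

/-- Bounded linear operators. -/
abbrev Op (X Y : Ban 𝕜) : Type := X.V →L[𝕜] Y.V

/-- Bounded linear functionals. -/
abbrev Func (X : Ban 𝕜) : Type := X.V →L[𝕜] 𝕜

namespace Op

variable {X Y Z : Ban 𝕜}

/-- the zero operator -/
def zero (X Y : Ban 𝕜) : Op X Y := 0

/-- sum of operators -/
def add (S T : Op X Y) : Op X Y := S + T

/-- multiple of an operator -/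
def smul (c : 𝕜) (T : Op X Y) : Op X Y := c • T

/-- the operator norm -/
noncomputable def norm (T : Op X Y) : ℝ := ‖T‖

/-- the composition `R T` -/
def comp (R : Op Y Z) (T : Op X Y) : Op X Z := ContinuousLinearMap.comp R T

/-- the rank-one operator `x ↦ f x • y` -/
def rankOne (f : Func X) (y : Y.V) : Op X Y := ContinuousLinearMap.smulRight f y

/-- the norm of the difference of two operators at a point -/
noncomputable def distAt (S T : Op X Y) (x : X.V) : ℝ := ‖S x - T x‖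

/-- the operator has finite rank -/
def FinRank (T : Op X Y) : Prop := FiniteDimensional 𝕜 (LinearMap.range (T : X.V →ₗ[𝕜] Y.V))

end Op

variable (𝕜) in
/-- A family of operators between Banach spaces with a size function (whose values outside the
family are irrelevant). -/
structure OpFamily where
  /-- the members -/
  mem : ∀ X Y : Ban 𝕜, Op X Y → Prop
  /-- the norm -/
  nrm : ∀ X Y : Ban 𝕜, Op X Y → ℝ

namespace OpFamily

variable (A : OpFamily 𝕜)

/-- The members form linear subspaces. -/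
def Linear : Prop :=
  ∀ X Y : Ban 𝕜, (∀ S T : Op X Y, A.mem X Y S → A.mem X Y T → A.mem X Y (S.add T)) ∧
    ∀ (c : 𝕜) (T : Op X Y), A.mem X Y T → A.mem X Y (T.smul c)

/-- The members include the finite-rank operators. -/
def ContainsFinRank : Prop := ∀ (X Y : Ban 𝕜) (T : Op X Y), T.FinRank → A.mem X Y T

/-- The size function is a norm on the members: sign and definiteness. -/
def Definite : Prop :=
  ∀ (X Y : Ban 𝕜) (T : Op X Y), A.mem X Y T →
    0 ≤ A.nrm X Y T ∧ (A.nrm X Y T = 0 → T = Op.zero X Y)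

/-- The size function is a norm on the members: triangle inequality and homogeneity. -/
def Norm : Prop :=
  ∀ X Y : Ban 𝕜,
    (∀ S T : Op X Y, A.mem X Y S → A.mem X Y T →
      A.nrm X Y (S.add T) ≤ A.nrm X Y S + A.nrm X Y T) ∧
    ∀ (c : 𝕜) (T : Op X Y), A.mem X Y T → A.nrm X Y (T.smul c) = ‖c‖ * A.nrm X Y T

/-- The distance of two operators for the norm of the family. -/
def dist {X Y : Ban 𝕜} (S T : Op X Y) : ℝ := A.nrm X Y (S.add (T.smul (-1)))

/-- The norm is complete. -/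
def Complete : Prop :=
  ∀ (X Y : Ban 𝕜) (T : ℕ → Op X Y), (∀ n, A.mem X Y (T n)) →
    (∀ ε : ℝ, 0 < ε → ∃ N, ∀ m, N ≤ m → ∀ n, N ≤ n → A.dist (T m) (T n) < ε) →
    ∃ S, A.mem X Y S ∧ Tendsto (fun n => A.dist (T n) S) atTop (𝓝 0)

/-- The norm of the rank-one operators. -/
def RankOne : Prop :=
  ∀ (X Y : Ban 𝕜) (f : Func X) (y : Y.V), A.nrm X Y (Op.rankOne f y) = ‖f‖ * ‖y‖

/-- The ideal property. -/
def IdealProp : Prop :=
  ∀ (W X Y Z : Ban 𝕜) (S : Op W X) (T : Op X Y) (R : Op Y Z), A.mem X Y T →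
    A.mem W Z (R.comp (T.comp S)) ∧
      A.nrm W Z (R.comp (T.comp S)) ≤ R.norm * A.nrm X Y T * S.norm

end OpFamily

variable (𝕜) in
/-- Banach operator ideals. -/
structure BanachIdeal extends OpFamily 𝕜 where
  linear : toOpFamily.Linear
  contains : toOpFamily.ContainsFinRank
  definite : toOpFamily.Definite
  norm : toOpFamily.Norm
  complete : toOpFamily.Complete
  rankOne : toOpFamily.RankOne
  idealProp : toOpFamily.IdealProp

/-- The identity operator. -/
def idOp (X : Ban 𝕜) : Op X X := ContinuousLinearMap.id 𝕜 X.V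

/-- The net `S` converges to `T` uniformly on compact sets. -/
def ToOnCompacts {ι : Type} [Preorder ι] {X Y : Ban 𝕜} (S : ι → Op X Y) (T : Op X Y) : Prop :=
  ∀ K : Set X.V, IsCompact K → ∀ ε : ℝ, 0 < ε → ∃ i, ∀ j, i ≤ j → ∀ x ∈ K,
    (S j).distAt T x < ε

/-- The net `S` converges pointwise to `T`. -/
def ToPointwise {ι : Type} [Preorder ι] {X Y : Ban 𝕜} (S : ι → Op X Y) (T : Op X Y) : Prop :=
  ∀ x : X.V, ∀ ε : ℝ, 0 < ε → ∃ i, ∀ j, i ≤ j → (S j).distAt T x < ε

/-- The upper limit of the net of reals `r` is at most `c`. -/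
def LimsupLe {ι : Type} [Preorder ι] (r : ι → ℝ) (c : ℝ) : Prop :=
  ∀ ε : ℝ, 0 < ε → ∃ i, ∀ j, i ≤ j → r j ≤ c + ε

/-- The `lam`-bounded approximation property of `X` for the ideal `A`: for all `Y` and all
`T ∈ A(X, Y)` there is a net of finite-rank operators on `X` converging to the identity uniformly
on compact sets with `limsup ‖T S_i‖_A ≤ lam ‖T‖_A`. -/
def BAPFor (A : BanachIdeal 𝕜) (lam : ℝ) (X : Ban 𝕜) : Prop :=
  ∀ (Y : Ban 𝕜) (T : Op X Y), A.mem X Y T →
    ∃ (ι : Type) (_ : Preorder ι) (_ : IsDirected ι (· ≤ ·)) (_ : Nonempty ι)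
      (S : ι → Op X X), (∀ i, (S i).FinRank) ∧ ToOnCompacts S (idOp X) ∧
        LimsupLe (fun i => A.nrm X Y (T.comp (S i))) (lam * A.nrm X Y T)

/-- Condition `(P_lam)` of `X` for the ideal `A`: for all `Y` and all `T ∈ A(X, Y)` there is a net
of finite-rank operators `T_i : X → Y` converging pointwise to `T` with
`limsup ‖T_i‖_A ≤ lam ‖T‖_A`. -/
def PFor (A : BanachIdeal 𝕜) (lam : ℝ) (X : Ban 𝕜) : Prop :=
  ∀ (Y : Ban 𝕜) (T : Op X Y), A.mem X Y T →
    ∃ (ι : Type) (_ : Preorder ι) (_ : IsDirected ι (· ≤ ·)) (_ : Nonempty ι)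
      (T' : ι → Op X Y), (∀ i, (T' i).FinRank) ∧ ToPointwise T' T ∧
        LimsupLe (fun i => A.nrm X Y (T' i)) (lam * A.nrm X Y T)

/-- The finite-rank operators form a subspace. -/
def fin (X Y : Ban 𝕜) : Submodule 𝕜 (X.V →L[𝕜] Y.V) where
  carrier := {T | Op.FinRank T}
  zero_mem' := by
    change FiniteDimensional 𝕜 (LinearMap.range (0 : X.V →ₗ[𝕜] Y.V))
    rw [LinearMap.range_zero]
    infer_instance
  add_mem' := by
    intro S T hS hT
    change FiniteDimensional 𝕜 (LinearMap.range (S : X.V →ₗ[𝕜] Y.V)) at hS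
    change FiniteDimensional 𝕜 (LinearMap.range (T : X.V →ₗ[𝕜] Y.V)) at hT
    change FiniteDimensional 𝕜 (LinearMap.range ((S : X.V →ₗ[𝕜] Y.V) + (T : X.V →ₗ[𝕜] Y.V)))
    refine Submodule.finiteDimensional_of_le (S₂ := LinearMap.range (S : X.V →ₗ[𝕜] Y.V) ⊔
      LinearMap.range (T : X.V →ₗ[𝕜] Y.V)) ?_
    rintro _ ⟨x, rfl⟩
    exact Submodule.add_mem_sup ⟨x, rfl⟩ ⟨x, rfl⟩
  smul_mem' := by
    intro c T hT
    change FiniteDimensional 𝕜 (LinearMap.range (T : X.V →ₗ[𝕜] Y.V)) at hT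
    change FiniteDimensional 𝕜 (LinearMap.range (c • (T : X.V →ₗ[𝕜] Y.V)))
    refine Submodule.finiteDimensional_of_le (S₂ := LinearMap.range (T : X.V →ₗ[𝕜] Y.V)) ?_
    rintro _ ⟨x, rfl⟩
    exact Submodule.smul_mem _ c ⟨x, rfl⟩

theorem finRank_comp {W X Y Z : Ban 𝕜} (S : Op W X) {T : Op X Y} (R : Op Y Z)
    (hT : T.FinRank) : Op.FinRank (R.comp (T.comp S)) := by
  unfold Op.FinRank at hT ⊢
  have h1 : FiniteDimensional 𝕜
      ((LinearMap.range (T : X.V →ₗ[𝕜] Y.V)).map (R : Y.V →ₗ[𝕜] Z.V)) := inferInstance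
  refine Submodule.finiteDimensional_of_le (S₂ := (LinearMap.range (T : X.V →ₗ[𝕜] Y.V)).map
    (R : Y.V →ₗ[𝕜] Z.V)) ?_
  rintro _ ⟨x, rfl⟩
  exact ⟨T (S x), ⟨S x, rfl⟩, rfl⟩

variable (𝕜) in
/-- The ideal of approximable operators (norm limits of finite-rank operators) with the operator
norm. -/
noncomputable def approximable : BanachIdeal 𝕜 where
  mem X Y T := T ∈ (fin X Y).topologicalClosure
  nrm _ _ T := ‖T‖
  linear X Y := ⟨fun S T hS hT => (fin X Y).topologicalClosure.add_mem hS hT,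
    fun c T hT => (fin X Y).topologicalClosure.smul_mem c hT⟩
  contains X Y T hT := Submodule.le_topologicalClosure _ hT
  definite _ _ T _ := ⟨norm_nonneg T, fun h => norm_eq_zero.1 h⟩
  norm X Y := ⟨fun S T _ _ => norm_add_le S T, fun c T _ => norm_smul c T⟩
  complete X Y T hT hC := by
    have hd : ∀ S T : Op X Y, ‖S + (-1 : 𝕜) • T‖ = ‖S - T‖ := by
      intro S T
      rw [neg_one_smul, sub_eq_add_neg]
    have h1 : CauchySeq T := by
      rw [Metric.cauchySeq_iff]
      intro ε hε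
      obtain ⟨N, hN⟩ := hC ε hε
      refine ⟨N, fun m hm n hn => ?_⟩
      rw [dist_eq_norm, ← hd]
      exact hN m hm n hn
    obtain ⟨S, hS⟩ := cauchySeq_tendsto_of_complete h1
    refine ⟨S, ?_, ?_⟩
    · exact (Submodule.isClosed_topologicalClosure (fin X Y)).mem_of_tendsto hS
        (Eventually.of_forall hT)
    · change Tendsto (fun n => ‖T n + (-1 : 𝕜) • S‖) atTop (𝓝 0)
      simp only [hd]
      exact tendsto_iff_norm_sub_tendsto_zero.1 hS
  rankOne _ _ f y := ContinuousLinearMap.norm_smulRight_apply f y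
  idealProp W X Y Z S T R hT := by
    have hc : Continuous (fun T : X.V →L[𝕜] Y.V => ContinuousLinearMap.comp R
        (ContinuousLinearMap.comp T S)) :=
      (ContinuousLinearMap.compL 𝕜 W.V Y.V Z.V R).continuous.comp
        ((ContinuousLinearMap.compL 𝕜 W.V X.V Y.V).flip S).continuous
    have h1 : (fun T : X.V →L[𝕜] Y.V => ContinuousLinearMap.comp R
        (ContinuousLinearMap.comp T S)) T ∈
        closure ((fin W Z : Submodule 𝕜 (W.V →L[𝕜] Z.V)) : Set (W.V →L[𝕜] Z.V)) := by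
      refine map_mem_closure (f := fun T : X.V →L[𝕜] Y.V => ContinuousLinearMap.comp R
        (ContinuousLinearMap.comp T S))
        (s := ((fin X Y : Submodule 𝕜 (X.V →L[𝕜] Y.V)) : Set (X.V →L[𝕜] Y.V))) hc hT ?_
      intro T hT
      exact finRank_comp S R hT
    refine ⟨h1, ?_⟩
    change ‖ContinuousLinearMap.comp R (ContinuousLinearMap.comp T S)‖ ≤ ‖R‖ * ‖T‖ * ‖S‖
    calc ‖ContinuousLinearMap.comp R (ContinuousLinearMap.comp T S)‖
        ≤ ‖R‖ * ‖ContinuousLinearMap.comp T S‖ := ContinuousLinearMap.opNorm_comp_le R _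
      _ ≤ ‖R‖ * (‖T‖ * ‖S‖) := by gcongr; exact ContinuousLinearMap.opNorm_comp_le T S
      _ = ‖R‖ * ‖T‖ * ‖S‖ := by ring

/-- Every Banach space satisfies `(P_lam)` for the approximable operators, `lam ≥ 1`. -/
theorem pFor_approximable (lam : ℝ) (hlam : 1 ≤ lam) (X : Ban 𝕜) :
    PFor (approximable 𝕜) lam X := by
  intro Y T hT
  have h1 : ∀ n : ℕ, ∃ T' : X.V →L[𝕜] Y.V, Op.FinRank T' ∧ ‖T' - T‖ < 1 / (n + 1) := by
    intro n
    have hT' : T ∈ closure ((fin X Y : Submodule 𝕜 (X.V →L[𝕜] Y.V)) : Set (X.V →L[𝕜] Y.V)) := hT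
    rw [Metric.mem_closure_iff] at hT'
    obtain ⟨T', h1, h2⟩ := hT' (1 / (n + 1)) (by positivity)
    refine ⟨T', h1, ?_⟩
    rwa [← dist_eq_norm, dist_comm]
  choose T' h2 h3 using h1
  refine ⟨ℕ, inferInstance, inferInstance, inferInstance, T', h2, ?_, ?_⟩
  · intro x ε hε
    obtain ⟨N, hN⟩ := exists_nat_gt (‖x‖ / ε)
    refine ⟨N, fun j hj => ?_⟩
    change ‖T' j x - T x‖ < ε
    have h4 : ‖T' j x - T x‖ ≤ ‖T' j - T‖ * ‖x‖ := (T' j - T).le_opNorm x
    have h5 : ‖T' j - T‖ * ‖x‖ ≤ 1 / (j + 1) * ‖x‖ := by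
      gcongr
      exact (h3 j).le
    refine (h4.trans h5).trans_lt ?_
    rw [div_mul_eq_mul_div, one_mul, div_lt_iff₀ (by positivity)]
    rw [div_lt_iff₀ hε] at hN
    have h6 : (N : ℝ) ≤ j := by exact_mod_cast hj
    nlinarith
  · intro ε hε
    obtain ⟨N, hN⟩ := exists_nat_gt (1 / ε)
    refine ⟨N, fun j hj => ?_⟩
    change ‖T' j‖ ≤ lam * ‖T‖ + ε
    have h4 : ‖T' j‖ ≤ ‖T‖ + ‖T' j - T‖ := by
      calc ‖T' j‖ = ‖T + (T' j - T)‖ := by rw [add_sub_cancel]
        _ ≤ ‖T‖ + ‖T' j - T‖ := norm_add_le _ _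
    have h5 : 1 / ((j : ℝ) + 1) ≤ ε := by
      rw [div_le_iff₀ (by positivity)]
      rw [div_lt_iff₀ hε] at hN
      have h6 : (N : ℝ) ≤ j := by exact_mod_cast hj
      nlinarith
    have h6 := h3 j
    have h7 : ‖T‖ ≤ lam * ‖T‖ := by
      have := norm_nonneg T
      nlinarith
    linarith

/-- There are a Banach operator ideal `A` (the approximable operators) and a Banach space `X` such
that `X` satisfies `(P_lam)` for `A` for every `lam ≥ 1`, but for no `lam` does `X` have the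
`lam`-bounded approximation property for `A`. Both for real and for complex scalars. -/
theorem result (𝕜 : Type) [RCLike 𝕜] : ∃ (A : BanachIdeal 𝕜) (X : Ban 𝕜),
    (∀ lam : ℝ, 1 ≤ lam → PFor A lam X) ∧ ∀ lam : ℝ, ¬ BAPFor A lam X := by
  obtain ⟨s⟩ := Pool.Agent.H812R2.AP.exists_sys
  refine ⟨approximable 𝕜, ⟨s.XT 𝕜⟩, fun lam hlam => pFor_approximable lam hlam _, ?_⟩
  intro lam h
  obtain ⟨ι, _, _, _, S, h1, h2, _⟩ := h ⟨s.XT 𝕜⟩ 0 (Submodule.zero_mem _)
  obtain ⟨i, hi⟩ := h2 (s.cpt 𝕜) (s.isCompact_cpt 𝕜) (1 / 6) (by norm_num)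
  obtain ⟨x, hx1, hx2⟩ := s.far (S i) (h1 i)
  exact absurd (hi i le_rfl x hx1) (not_lt.2 hx2)

end Pool.Agent.Results.MP_2b2a50_an.NotEquivalent
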